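import Pool.Agent.Q57.CX.Top
import Pool.Agent.Run7.h277.MM.Top

/-!
# The minimal model program with scaling for the toroidal models of covers of products of projective
# spaces

Let `F i` be a form of degree `d i` in `n i + 1` variables whose zero set in the projective
`n i`-space is a smooth hypersurface, and let `H i` be the cyclic hypersurface `w ^ (d i) = F i` in
the projective `(n i + 1)`-space. Let `K` be the function field of a quotient
`Y = (H 1 × ... × H r) / G`, where `G` is any group of diagonal automorphisms
`w i ↦ ζ i * w i`, `ζ i ^ (d i) = 1`. Equivalently, `K` is generated by the affine coordinates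
`x i j / x i 0` of the product of the projective `n i`-spaces and by roots `z j`,
`z j ^ (m j) = ∏ i, (F i (x i) / x i 0 ^ (d i)) ^ (a j i)`, where `m j` divides `a j i * d i`: the
abelian covers of the product of the projective spaces which are branched along the hypersurfaces
`F i = 0` of the factors. There is no condition on the dimensions and the degrees, so `Y` can be
rationally connected, Calabi-Yau, of general type, or of any intermediate Kodaira dimension.

A prime divisor `P` over `Y` (a divisorial place of `K`) has the vector `multiplicities F d x P` of the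
multiplicities `v i` of the hypersurfaces along `P`. The vectors `v ≠ 0` of nonnegative integers with
`m j ∣ ∑ i, a j i * v i` for all `j` are the `Admissible` ones: the nonzero points, in the positive
orthant, of the lattice of the toroidal variety `Y`.

**The varieties.** The toroidal modifications `X` of `Y` are given by the subdivisions (fans) of the
positive orthant into rational polyhedral cones; `fan` is the set of the maximal cones, each given by
a finite set of admissible generators which span the space.

**The divisors.** `D 1, ..., D p` are toroidal `ℚ`-Cartier divisors on `X`: sums of multiples `β i t`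
of the hyperplane classes of the factors and of the prime divisors of the boundary of `X`. The
coefficient of the pullback of `D i` at a prime divisor `P` over `X` is
`coefficient F d x (c i) (β i) P = c i v + ∑ t, β i t * h t`, where `v` is the vector of the
multiplicities, `h t` is minus the minimal order at `P` of the homogeneous coordinates of the `t`-th
factor, and `- c i v = ∑ k, u σ i k * v k` on the cone `σ`. Take divisors `D i` which generate all
toroidal `ℚ`-Cartier divisors on a `ℚ`-factorial `X`. If all `n i ≥ 3` then every divisor on `X` is,
up to `ℚ`-linear equivalence, toroidal (Lefschetz; this remark is not used and not proved here). So for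
every log canonical pair `(X, Δ)` with rational coefficients, `K_X + Δ` is `ℚ`-linearly equivalent to a
rational combination `∑ i, κ i * D i`; the boundary `Δ` can be arbitrary, also not toroidal. If not
all `n i ≥ 3` the theorem is about the pairs for which the class of `K_X + Δ` is toroidal. A
combination `A = ∑ i, lam i * D i` is ample if the rational combinations near it are semiample.

**The program.** Let `A` be ample on `X`. The theorem describes the minimal model program for
`K_X + Δ` with scaling of `A`. There are rational numbers `τ 0 > τ 1 > ... > τ s ≥ 0` and models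
`X = X 0, X 1, ..., X (s - 1)`, on which the pushforwards of `K_X + Δ` and `A` have the pullbacks with the
coefficients `k j P` and `α j P` at the prime divisors `P` over `X`, with these properties. The divisor
`K_X + Δ + t A` is semiample on `X j` for all `t` between `τ (j + 1)` and `τ j` (on `X 0 = X`: for all
`t ≥ τ 1`): its multiples on `X` and the multiples of the divisor on `X j` with the coefficients
`k j P + t * α j P` have the same sections, and some multiple has no base points on `X j`
(`IsSemiampleOn`). In each step `X j --> X (j + 1)` no coefficient of the pullback of `K_X + Δ` increases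
and some coefficient becomes smaller: no discrepancy of `(X, Δ)` decreases and some discrepancy becomes
larger. So the steps are flips and divisorial contractions, at the values `τ (j + 1)` where
`K_X + Δ + t A` ceases to be nef on `X j` (for a general ample `A`; for special `A` a step contracts an
extremal face). At the end either

* `τ s = 0`, and `K_X + Δ` is semiample, in particular nef, on the last model: a good minimal model; or

* `τ s > 0`, and no multiple of `K_X + Δ + t A` with `t < τ s` has a nonzero section. Then
  `K_X + Δ + τ s A` is semiample and not big on the last model, and defines a Mori fibre space, with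
  `- (K_X + Δ)` ample on the fibres.

The number `s` of the models is at most a number `B` which depends only on `X`, and not on `Δ` and `A`.

So the question has a positive answer for all log canonical pairs `(X, Δ)` on these varieties. The
starting files `MP_89a3f8_ag.TerminationOfFlips` and `MP_a06248_ag.FlipsWithoutFactoriality` show, from the same
library, that sequences of flips of these `X` are finite; here the program itself is constructed, for
all classes of divisors, with both possible ends, and without the theorems on the existence of
flips. The proof uses only that the multigraded section ring of the `D i` is finitely generated (a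
theorem of the library of the starting files, `main_cox`): the asymptotic orders of `K_X + Δ + t A` at
`P` are the values of linear programs with finitely many columns, which are affine functions of `t`
between finitely many values of `t` which do not depend on `P`.
-/

set_option autoImplicit false

open FF MvPolynomial Pool.Agent.W602.GT

namespace Pool.Agent.Results.MP_c1e25c_ag.MmpWithScaling

/-- The form `F` has no singular zeros: its partial derivatives have no common zero but `0`. -/
def Smooth {n : ℕ} (F : MvPolynomial (Fin (n + 1)) ℂ) : Prop :=
  ∀ x : Fin (n + 1) → ℂ, x ≠ 0 → ∃ l, eval x (pderiv l F) ≠ 0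

section fans

variable {r R : ℕ}

/-- The multiplicities which satisfy the divisibility conditions. -/
def Admissible (m : Fin R → ℕ) (a : Fin R → Fin r → ℕ) (v : Fin r → ℕ) : Prop :=
  v ≠ 0 ∧ ∀ j, m j ∣ ∑ i, a j i * v i

/-- The vector `v` is in the cone which is generated by the vectors in `σ`. -/
def InCone (σ : Finset (Fin r → ℕ)) (v : Fin r → ℕ) : Prop :=
  ∃ w : (Fin r → ℕ) → ℚ, (∀ s, 0 ≤ w s) ∧ ∀ k, (v k : ℚ) = ∑ s ∈ σ, w s * s k

/-- `fan` is a finite set of cones, each generated by a finite set of admissible vectors which span
the whole space, which cover all admissible vectors. -/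
structure IsFan (m : Fin R → ℕ) (a : Fin R → Fin r → ℕ) (fan : Finset (Finset (Fin r → ℕ))) :
    Prop where
  adm : ∀ σ ∈ fan, ∀ s ∈ σ, Admissible m a s
  full : ∀ σ ∈ fan, ∀ f : Fin r → ℚ, ∃ q : (Fin r → ℕ) → ℚ, ∀ k, f k = ∑ s ∈ σ, q s * s k
  cover : ∀ v, Admissible m a v → ∃ σ ∈ fan, InCone σ v

end fans

section places

variable {r : ℕ} {n : Fin r → ℕ} {K : Type} [Field K] [Algebra ℂ K]

/-- The affine coordinates of the product of the projective spaces. -/
noncomputable def affine (x : ∀ i, Fin (n i + 1) → K) (b : (i : Fin r) × Fin (n i)) : K :=
  x b.1 b.2.succ / x b.1 0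

/-- The minimal order at `P` of the homogeneous coordinates `y`. -/
noncomputable def minimalOrder {n : ℕ} (y : Fin (n + 1) → K) (P : Place ℂ K) : ℤ :=
  Finset.univ.inf' Finset.univ_nonempty fun j => P.ord (y j)

/-- The multiplicities of the hypersurfaces `F i = 0` along the prime divisor `P`; the `x i j` are the
homogeneous coordinates of the `i`-th factor, which are divided by one of minimal order at `P`. -/
noncomputable def multiplicities (F : ∀ i, MvPolynomial (Fin (n i + 1)) ℂ) (d : Fin r → ℕ)
    (x : ∀ i, Fin (n i + 1) → K) (P : Place ℂ K) (i : Fin r) : ℕ :=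
  (P.ord (aeval (x i) (F i)) - d i * minimalOrder (x i) P).toNat

/-- The coefficient at the prime divisor `P` of the divisor with the function `c` of the
multiplicities and the degrees `β t`: it is `c v` plus `β t` times the coefficient at `P` of the
hyperplane class of the `t`-th factor, which is represented by the divisor with the coefficients
`- minimalOrder (x t) P` (its sections are the linear forms in the `x t j`). -/
noncomputable def coefficient (F : ∀ i, MvPolynomial (Fin (n i + 1)) ℂ) (d : Fin r → ℕ)
    (x : ∀ i, Fin (n i + 1) → K) (c : (Fin r → ℕ) → ℚ) (β : Fin r → ℤ) (P : Place ℂ K) : ℚ :=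
  c (multiplicities F d x P) - ∑ t, (β t : ℚ) * minimalOrder (x t) P

end places

section divisors

variable {K : Type} [Field K] [Algebra ℂ K] {p : ℕ} (N : ℕ) (δ : Fin p → Place ℂ K → ℚ)

/-- `f` is a section of `∑ i, μ i * D i`: its order at every prime divisor `P` over `X` (every
divisorial place `P` of `K`) is at least minus the coefficient `∑ i, μ i * δ i P` of the pullback of
`∑ i, μ i * D i`, or `f = 0`. -/
def IsSection (μ : Fin p → ℤ) (f : K) : Prop :=
  ∀ P : Place ℂ K, Divisorial N P → f = 0 ∨ - ∑ i, (μ i : ℚ) * δ i P ≤ P.ord f

/-- The linear system of the integral combination `∑ i, μ i * D i` has no base points: it has for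
every prime divisor `P` over `X` a section which does not vanish at `P`, that is, its order at `P` is
the minimal one. -/
def BasePointFree (μ : Fin p → ℤ) : Prop :=
  ∀ P : Place ℂ K, Divisorial N P → ∃ f : K, f ≠ 0 ∧ IsSection N δ μ f ∧
    (P.ord f : ℚ) ≤ - ∑ i, (μ i : ℚ) * δ i P

/-- A positive multiple of the rational combination `∑ i, μ i * D i` is an integral combination
without base points. -/
def Semiample (μ : Fin p → ℚ) : Prop :=
  ∃ k : ℕ, 1 ≤ k ∧ ∃ ν : Fin p → ℤ, (∀ i, (k : ℚ) * μ i = ν i) ∧ BasePointFree N δ ν

/-- The combination `∑ i, lam i * D i` is ample: all rational combinations near it are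
semiample. -/
def Ample (lam : Fin p → ℚ) : Prop :=
  ∃ ε : ℚ, 0 < ε ∧ ∀ μ : Fin p → ℚ, (∀ i, |μ i - lam i| ≤ ε) → Semiample N δ μ

/-- The rational combination `∑ i, μ i * D i` is semiample on the model on which the pullback of its
pushforward has the coefficients `γ P`: the multiples `m μ` which are integral have the same sections as
the divisor with the coefficients `m * γ P`, and for some `m ≥ 1` this divisor has for every `P` a
section whose order at `P` is the minimal one. -/
def IsSemiampleOn (μ : Fin p → ℚ) (γ : Place ℂ K → ℚ) : Prop :=
  (∀ (m : ℕ) (ν : Fin p → ℤ), (∀ i, (m : ℚ) * μ i = ν i) → ∀ f : K,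
      (IsSection N δ ν f ↔ ∀ P : Place ℂ K, Divisorial N P → f = 0 ∨ - (m * γ P) ≤ P.ord f)) ∧
    ∃ m : ℕ, 1 ≤ m ∧ ∃ ν : Fin p → ℤ, (∀ i, (m : ℚ) * μ i = ν i) ∧
      ∀ P : Place ℂ K, Divisorial N P → ∃ f : K, f ≠ 0 ∧ IsSection N δ ν f ∧
        (P.ord f : ℚ) ≤ - (m * γ P)

/-- The minimal model program for the combination `κ` (the class of `K_X + Δ`) with scaling of the
ample combination `lam` (the class of `A`): `s` models, with the coefficients `k j P` and `α j P` of the
pullbacks of the pushforwards of the two divisors, and the nef thresholds `τ j`. -/
structure IsProgram (κ lam : Fin p → ℚ) (s : ℕ) (τ : ℕ → ℚ) (α k : ℕ → Place ℂ K → ℚ) :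
    Prop where
  /-- the thresholds are nonnegative and decreasing -/
  nonneg : 0 ≤ τ s
  decreasing : ∀ j < s, τ (j + 1) < τ j
  /-- the first model is `X` -/
  start : ∀ P : Place ℂ K, Divisorial N P →
    k 0 P = ∑ i, κ i * δ i P ∧ α 0 P = ∑ i, lam i * δ i P
  start_semiample : ∀ t, τ 1 ≤ t →
    IsSemiampleOn N δ (fun i => κ i + t * lam i) fun P => k 0 P + t * α 0 P
  /-- `K_X + Δ + t A` is semiample on the `j`-th model for `t` between `τ (j + 1)` and `τ j` -/
  semiample : ∀ j < s, ∀ t, τ (j + 1) ≤ t → t ≤ τ j →
    IsSemiampleOn N δ (fun i => κ i + t * lam i) fun P => k j P + t * α j P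
  /-- in each step no discrepancy of `K_X + Δ` decreases and some discrepancy increases -/
  step : ∀ j, j + 1 < s → (∀ P : Place ℂ K, Divisorial N P → k (j + 1) P ≤ k j P) ∧
    ∃ P : Place ℂ K, Divisorial N P ∧ k (j + 1) P < k j P
  /-- at the end `K_X + Δ` is semiample (`τ s = 0`), or `τ s > 0` is the smallest `t` such that a
  multiple of `K_X + Δ + t A` has a nonzero section -/
  finish : τ s = 0 ∨ 0 < τ s ∧ ∀ t : ℚ, t < τ s → ∀ (m : ℕ) (ν : Fin p → ℤ), 1 ≤ m →
    (∀ i, (m : ℚ) * (κ i + t * lam i) = ν i) → ∀ f : K, IsSection N δ ν f → f = 0

end divisors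

/-- **The minimal model program with scaling.** Let `K` be the function field of an abelian cover `Y`
of the product of the projective `n i`-spaces which is branched along smooth hypersurfaces `F i = 0` of
the factors, `X` the toroidal modification of `Y` which is given by `fan`, and `D i`, `i < p`, toroidal
`ℚ`-Cartier divisors on `X` with the degrees `β i t` and the coefficients `c i`. There is a number `B`
such that for every rational combination `κ` of the `D i` and every ample rational combination `lam`
the minimal model program for `κ` with scaling of `lam` exists and has at most `B` models; its last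
model is a good minimal model (`τ s = 0`) or `τ s > 0` is the smallest number `t` such that `κ + t lam` is
effective. -/
theorem result (r N R p : ℕ) (n d : Fin r → ℕ) (hr : 1 ≤ r) (hn : ∀ i, 1 ≤ n i)
    (hd : ∀ i, 1 ≤ d i) (hN : N = ∑ i, n i)
    (F : ∀ i, MvPolynomial (Fin (n i + 1)) ℂ) (hF : ∀ i, (F i).IsHomogeneous (d i))
    (hs : ∀ i, Smooth (F i)) (m : Fin R → ℕ) (hm : ∀ j, 1 ≤ m j) (a : Fin R → Fin r → ℕ)
    (hdiv : ∀ j i, m j ∣ a j i * d i)
    (K : Type) [Field K] [Algebra ℂ K] (x : ∀ i, Fin (n i + 1) → K) (hx0 : ∀ i, x i 0 ≠ 0)
    (hbas : IsTranscendenceBasis ℂ (affine x)) (z : Fin R → K)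
    (hz : ∀ j, z j ^ m j = ∏ i, (aeval (x i) (F i) / x i 0 ^ d i) ^ a j i)
    (hgen : IntermediateField.adjoin ℂ (Set.range (affine x) ∪ Set.range z) = ⊤)
    (fan : Finset (Finset (Fin r → ℕ))) (hfan : IsFan m a fan)
    (c : Fin p → (Fin r → ℕ) → ℚ) (hc0 : ∀ i, c i 0 = 0) (β : Fin p → Fin r → ℤ)
    (u : Finset (Fin r → ℕ) → Fin p → Fin r → ℚ)
    (hlin : ∀ σ ∈ fan, ∀ i v, Admissible m a v → InCone σ v → - c i v = ∑ k, u σ i k * v k)
    (δ : Fin p → Place ℂ K → ℚ) (hδ : ∀ i P, δ i P = coefficient F d x (c i) (β i) P) :
    ∃ B : ℕ, ∀ κ lam : Fin p → ℚ, Ample N δ lam →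
      ∃ (s : ℕ) (τ : ℕ → ℚ) (α k : ℕ → Place ℂ K → ℚ), 1 ≤ s ∧ s ≤ B ∧
        IsProgram N δ κ lam s τ α k := by
  obtain ⟨B, hB⟩ := Pool.Agent.Run7.h277.MM.mmp_scaling
    (Pool.Agent.Q57.CX.main_cox (N := N) hr hn hN hd hF hs hx0 hbas hm hdiv
      hz hgen (S := fan) ⟨hfan.adm, hfan.full, hfan.cover⟩ hc0 (u := u) hlin (β := β) hδ)
  refine ⟨B, fun κ lam hlam => ?_⟩
  obtain ⟨s, τ, α, k, h1, h2, h3, h4, h5, h6, h7, h8, h9⟩ := hB κ lam hlam
  exact ⟨s, τ, α, k, h1, h2, h3, h4, h5, h6, h7, h8, h9⟩

end Pool.Agent.Results.MP_c1e25c_ag.MmpWithScaling
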