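import Pool.Agent.Run7.h562.ND.PMain

/-!
# Minimal models of pairs dominated by the product of a variety and a pair

Let `V = X × Y`, where `X` and `Y` are smooth projective varieties over `ℂ` of dimensions `d` and `n`,
and let `Δ_Y` be an effective boundary on `Y`. There is no condition on `(Y, Δ_Y)`: `K_Y + Δ_Y` need
not be pseudo-effective. Let `V ⇢ W` be a dominant rational map of finite degree to a variety `W`.
It need not be related to the product structure, and it need not be the quotient by a group. Let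
`Δ_W` be an effective boundary on `W` with rational coefficients. Boundaries are given by their
coefficients `δ_W`, `δ_Y` along all prime divisors over `W` and `Y`. Suppose that the following
holds for all prime divisors `Q` over `V` (`Q` lies over the prime divisor `P` over `W` with the
ramification index `e`).

* If `Q` lies over the prime divisor `P'` over `Y` with the ramification index `e'`, then
  `1 - e' (1 - δ_Y(P')) ≤ e δ_W(P)` (the log pull-back of `Δ_Y` is at most the pull-back of `Δ_W`).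
* If `Q` is horizontal over `X`, then the coefficient `1 - e (1 - δ_W(P))` of the log pull-back of
  `Δ_W` is at most `e' δ_Y(P')`, and at most zero if `Q` is horizontal over `Y` as well. There is no
  such condition for the prime divisors which are vertical over `X`.

For example, `(W, Δ_W)` may be the quotient of `X × (Y, Δ_Y)` by a finite group, with the log
descended boundary, plus any boundary whose pull-back is vertical over `X`. The pairs need not be
klt: the coefficients `1` are allowed.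

Let `H_0, ..., H_{k-1}` be linear systems on `X`, let `W_i` be the image of `V` in
`W × ℙ^(m_0) × ... × ℙ^(m_{i-1})`, and let `d_i` be the degree of `W_{i+1} → W_i`. Suppose that
`V ⇢ W_k` is birational (general points of `V` with the same image in `W` are separated by the
systems on `X`), and that `N K_X - ∑ M_i H_i` is effective for some `N ≥ 1` and
`M_i > 2 N (d_i - 1)`. Then

* `K_W + Δ_W` is pseudo-effective if and only if `K_Y + Δ_Y` is; `κ(K_W + Δ_W) = -∞` if and only if
  `κ(K_Y + Δ_Y) = -∞`;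
* `κ(K_W + Δ_W) ≤ d + κ(K_Y + Δ_Y)` and `ν(K_W + Δ_W) ≤ d + ν(K_Y + Δ_Y)`;
* if the systems contain `s` algebraically independent functions then
  `κ(K_W + Δ_W) ≥ s + κ(K_Y + Δ_Y)` and `ν(K_W + Δ_W) ≥ s + ν(K_Y + Δ_Y)`;
* so, if the systems separate the general points of `X` generically finitely (`s = d`), then
  `κ` and `ν` of `(W, Δ_W)` are those of `(Y, Δ_Y)` plus `d`, and `κ = ν ≥ 0` for `(W, Δ_W)` if and
  only if `κ = ν ≥ 0` for `(Y, Δ_Y)`.

For the minimal model conjecture: a klt pair with pseudo-effective log canonical divisor has a good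
minimal model if and only if `κ = ν` (Gongyo, Lehmann), and then the minimal model programme with
scaling ends with it (Birkar, Hacon, Xu). So if `(W, Δ_W)` and `(Y, Δ_Y)` are klt and `dim Y ≤ 3`,
then the programme for `(W, Δ_W)` (in every dimension) ends with a good minimal model or with a Mori
fibre space (Birkar, Cascini, Hacon, McKernan). These last steps are not part of the Lean proof.

Method. Upper bounds: the sections of `m (K_W + Δ_W) + A` pull back to `V`, and they are
combinations, over the function field of `X`, of sections of `m (K_Y + Δ_Y) + A'`, with `A'`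
independent of `m` (a Künneth theorem for adjoint divisors of pairs, `ND.pext`; only the divisors
which are horizontal over `X` matter). Lower bounds: exterior products `η^s ∧ τ` of a positive
multicanonical form on `X` with sections `τ` of `m (K_Y + Δ_Y) + A`, multiplied by monomials in the
systems, and their norms down to `W` (`Run7.h72.tower_ind`, the norm principle in towers of
helper72, which takes care of boundaries).
-/

set_option autoImplicit false
set_option linter.overlappingInstances false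
set_option linter.unusedSectionVars false
set_option linter.unusedVariables false

open FF IntermediateField Module

namespace Pool.Agent.Results.MP_c1e25c_ag.PairsDominatedByPairs

open Pool.Agent.W602.GT (Divisorial RegAt IsPluri)
open Pool.Agent.W619.TW (HasIndep)
open Pool.Agent.Y174 (PairSec LiesOn)
open Run7.h72 (mlt Lv)

/-- `ν (K_W + Δ) = -∞` (`K_W + Δ` is not pseudo-effective): for each divisor `A`, no large multiple
`m (K_W + Δ) + A` has a section. The divisor `Δ` is given by its coefficients `δ P` along all prime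
divisors `P` over `W`: sections of `m (K_W + Δ) + A` are `m`-canonical forms whose value on vector
fields which are regular along `P` has order at least `-m δ P + ord_P A` (`PairSec`). -/
def NuNeg (L : Type) [Field L] [Algebra ℂ L] (d : ℕ) (δ : Place ℂ L → ℝ) : Prop :=
  ∀ S : Finset L, ∃ m0 : ℕ, ∀ m, m0 ≤ m → ¬ HasIndep ℂ L d 1 (PairSec ℂ L d δ S m 1)

/-- `ν (K_W + Δ) ≤ h`: for each divisor `A` there is `C` with
`h⁰ (m (K_W + Δ) + A) ≤ C m ^ h` for all `m ≥ 1`. -/
def NuLe (L : Type) [Field L] [Algebra ℂ L] (d : ℕ) (δ : Place ℂ L → ℝ) (h : ℕ) : Prop :=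
  ∀ S : Finset L, ∃ C : ℕ, ∀ m N : ℕ, 1 ≤ m → HasIndep ℂ L d N (PairSec ℂ L d δ S m 1) →
    N ≤ C * m ^ h

/-- `κ (K_W + Δ) ≥ a`: there is `m ≥ 1` with `h⁰ (j m (K_W + Δ)) ≥ j ^ a` for all `j ≥ 1`. -/
def KapGe (L : Type) [Field L] [Algebra ℂ L] (d : ℕ) (δ : Place ℂ L → ℝ) (a : ℕ) : Prop :=
  ∃ m : ℕ, 1 ≤ m ∧ ∀ j : ℕ, 1 ≤ j → HasIndep ℂ L d (j ^ a) (PairSec ℂ L d δ {1} (j * m) 0)

/-- `κ (K_W + Δ) = ν (K_W + Δ) ≥ 0`. -/
def Abundant (L : Type) [Field L] [Algebra ℂ L] (d : ℕ) (δ : Place ℂ L → ℝ) : Prop :=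
  ∃ h, KapGe L d δ h ∧ NuLe L d δ h

/-- `Δ` is effective, and it is bounded: the divisor of the poles of finitely many functions. This is
so for the boundary of every pair. -/
def EffBounded {L : Type} [Field L] [Algebra ℂ L] (d : ℕ) (δ : Place ℂ L → ℝ) : Prop :=
  (∀ P, Divisorial d P → 0 ≤ δ P) ∧
    ∃ S : Finset L, ∀ P, Divisorial d P → ∃ t ∈ S, t ≠ 0 ∧ δ P ≤ -(P.ord t : ℝ)

section

variable {K L : Type} [Field K] [Field L] [Algebra ℂ K] [Algebra ℂ L] [Algebra L K]

/-- The log pull-back of `Δ_Y` to `V` is at most the pull-back of `Δ_W`, along the prime divisors `Q`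
over `V` (of dimension `d`) which are vertical over `Y`. -/
def Lower (F : IntermediateField ℂ K) (d : ℕ) (δW : Place ℂ L → ℝ) (δY : Place ℂ F → ℝ) : Prop :=
  ∀ (Q : Place ℂ K) (P : Place ℂ L) (e : ℕ) (P' : Place ℂ F) (e' : ℕ), Divisorial d Q →
    LiesOn Q P e → LiesOn Q P' e' → 1 - e' * (1 - δY P') ≤ e * δW P

/-- Along the prime divisors `Q` over `V` (of dimension `d`) which are horizontal over `X`, the log
pull-back of `Δ_W` is at most the pull-back of `Δ_Y`. -/
def Upper (E F : IntermediateField ℂ K) (d : ℕ) (δW : Place ℂ L → ℝ) (δY : Place ℂ F → ℝ) : Prop :=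
  ∀ (Q : Place ℂ K) (P : Place ℂ L) (e : ℕ), Divisorial d Q → LiesOn Q P e →
    (∀ f : E, Q.ord (f : K) = 0) →
      ((∀ f : F, Q.ord (f : K) = 0) → 1 - e * (1 - δW P) ≤ 0) ∧
      ∀ (P' : Place ℂ F) (e' : ℕ), LiesOn Q P' e' → 1 - e * (1 - δW P) ≤ e' * δY P'

end

/-- `N K_X - ∑ M_i H_i` is effective, where `H_i` is the linear system spanned by the functions
`x i b` (with `x i 0 = 1`): there is an `N`-canonical form `η ≠ 0` such that all products
`∏ (x i (f i)) ^ M_i * η` are regular along all prime divisors (on all models). -/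
def SysEff {E : Type} [Field E] [Algebra ℂ E] (d N : ℕ) {k : ℕ} {m : Fin k → ℕ}
    (x : ∀ i, Fin (m i + 1) → E) (M : Fin k → ℕ) : Prop :=
  ∃ η : (Fin d → Derivation ℂ E E) → E, IsPluri N η ∧ (∃ D, η D ≠ 0) ∧
    ∀ f, ∀ P : Place ℂ E, Divisorial d P → RegAt P fun D => mlt x M f * η D

/-- **Pairs dominated by the product of a variety and a pair.** `L ⊆ K` are the function fields of
`W` and `V = X × Y`, and `E`, `F` those of `X`, `Y`; the field `Lv L x i` is the function field of the
image `W_i` of `V` in `W × ℙ^(m_0) × ... × ℙ^(m_(i-1))`, and the condition `hM` is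
`M_i > 2 N (deg (W_(i+1) → W_i) - 1)`. -/
theorem result {K L : Type} [Field K] [Field L] [Algebra ℂ K] [Algebra ℂ L] [Algebra L K]
    [IsScalarTower ℂ L K] [FiniteDimensional L K] [Algebra.EssFiniteType ℂ K]
    {E F : IntermediateField ℂ K} [Algebra.EssFiniteType ℂ E] [Algebra.EssFiniteType ℂ F]
    (hsup : E ⊔ F = ⊤) {d n : ℕ} (hE : Algebra.trdeg ℂ E = d) (hn : Algebra.trdeg ℂ F = n)
    (hK : Algebra.trdeg ℂ K = (d + n : ℕ)) {k : ℕ} {m : Fin k → ℕ}
    (x : ∀ i, Fin (m i + 1) → E) (hx0 : ∀ i, x i 0 = 1)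
    (hgen : Lv L (fun i b => (x i b : K)) k = ⊤) {N : ℕ} (hN : 1 ≤ N) (M : Fin k → ℕ)
    (hM : ∀ i : Fin k, 2 * (finrank L (Lv L (fun i b => (x i b : K)) (i + 1)) -
      finrank L (Lv L (fun i b => (x i b : K)) i)) * N <
        M i * finrank L (Lv L (fun i b => (x i b : K)) i))
    (heff : SysEff d N x M) {δY : Place ℂ F → ℝ} {δW : Place ℂ L → ℝ}
    (hY : ∀ P, Divisorial n P → 0 ≤ δY P) (hW : EffBounded (d + n) δW)
    (hrat : ∀ P, ∃ c : ℚ, δW P = c)
    (hlow : Lower F (d + n) δW δY) (hup : Upper E F (d + n) δW δY) :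
    (NuNeg L (d + n) δW ↔ NuNeg F n δY) ∧ (KapGe L (d + n) δW 0 ↔ KapGe F n δY 0) ∧
    (∀ h, NuLe F n δY h → NuLe L (d + n) δW (d + h)) ∧
    (∀ a, KapGe L (d + n) δW (d + a) → KapGe F n δY a) ∧
    ∀ (s : ℕ) (q : Fin s → (i : Fin k) × Fin (m i + 1)),
      (AlgebraicIndependent ℂ fun a => x (q a).1 (q a).2) →
      (∀ h, NuLe L (d + n) δW (s + h) → NuLe F n δY h) ∧
      (∀ a, KapGe F n δY a → KapGe L (d + n) δW (s + a)) ∧
      (s = d → (∀ h, NuLe L (d + n) δW (d + h) ↔ NuLe F n δY h) ∧
        (∀ a, KapGe L (d + n) δW (d + a) ↔ KapGe F n δY a) ∧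
        (Abundant L (d + n) δW ↔ Abundant F n δY)) := by
  obtain ⟨η, hη, hη0, hreg⟩ := heff
  obtain ⟨hW0, SW, hSW⟩ := hW
  choose c hc using hrat
  obtain rfl : δW = fun P => (c P : ℝ) := funext hc
  have hmain := fun (s : ℕ) (q : Fin s → (i : Fin k) × Fin (m i + 1))
      (hq : AlgebraicIndependent ℂ fun a => x (q a).1 (q a).2) =>
    Pool.Agent.Run7.h562.ND.pmain hsup hE hn hK x hx0 hgen hN M hM hη hη0 hreg q hq
      (δY := δY) (δW := c) hY (fun P hP => by
        have h0 : (0 : ℝ) ≤ (c P : ℝ) := hW0 P hP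
        exact_mod_cast h0)
      (fun P Q e hQ hP hQE => ⟨(hup Q P e hQ ⟨hP.1, hP.2⟩ hQE).1, fun P' e' hP' =>
        (hup Q P e hQ ⟨hP.1, hP.2⟩ hQE).2 P' e' ⟨hP'.1, hP'.2⟩⟩)
      (fun P Q e hQ hP P' e' hP' => hlow Q P e P' e' hQ ⟨hP.1, hP.2⟩ ⟨hP'.1, hP'.2⟩) hSW
  obtain ⟨h1, h2, -, h4, -, h6⟩ := hmain 0 Fin.elim0
    ((algebraicIndependent_empty_type_iff).2 (algebraMap ℂ E).injective)
  refine ⟨h1, h2, h4, h6, fun s q hq => ?_⟩
  obtain ⟨-, -, h3, -, h5, -⟩ := hmain s q hq
  refine ⟨h3, h5, ?_⟩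
  rintro rfl
  refine ⟨fun h => ⟨h3 h, h4 h⟩, fun a => ⟨h6 a, h5 a⟩, ?_, ?_⟩
  · rintro ⟨h, ha, hb⟩
    have e1 : KapGe F n δY 0 := h2.1 (Pool.Agent.Run7.h562.ND.pair_kap_mono
      (L := L) (Nat.zero_le _) ha)
    have e2 := Pool.Agent.Run7.h562.ND.pair_kap_le (L := L) (h5 0 e1) hb
    rw [add_zero] at e2
    obtain ⟨a, rfl⟩ := Nat.exists_eq_add_of_le e2
    exact ⟨a, h6 a ha, h3 a hb⟩
  · rintro ⟨h, ha, hb⟩
    exact ⟨s + h, h5 h ha, h4 h hb⟩

end Pool.Agent.Results.MP_c1e25c_ag.PairsDominatedByPairs
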